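import Pool.Agent.H8.GG.Step

/-!
# Sums of two numbers with partial quotients tending to infinity: digits and infinite fractions
-/

set_option autoImplicit false

namespace Pool.Agent.H8.GG

/-- Finite continued fraction with tail `y`. -/
noncomputable def phi : List ℤ → ℝ → ℝ
  | [], y => y
  | a :: L, y => 1 / (a + phi L y)

/-- Append a list of digits. -/
def apps (S : Sd) (L : List ℤ) : Sd := L.foldl app S

theorem apps_cons (S : Sd) (a : ℤ) (L : List ℤ) : apps S (a :: L) = apps (app S a) L := rfl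

theorem apps_append (S : Sd) (L M : List ℤ) : apps S (L ++ M) = apps (apps S L) M :=
  List.foldl_append

theorem phi_append (L M : List ℤ) (y : ℝ) : phi (L ++ M) y = phi L (phi M y) := by
  induction L with
  | nil => rfl
  | cons a L ih => simp only [List.cons_append, phi, ih]

theorem phi_nonneg {L : List ℤ} (hL : ∀ a ∈ L, 1 ≤ a) {y : ℝ} (hy : 0 ≤ y) : 0 ≤ phi L y := by
  induction L with
  | nil => exact hy
  | cons a L ih =>
    have h1 : (1 : ℝ) ≤ a := by exact_mod_cast hL a (by simp)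
    have h2 := ih fun b hb => hL b (by simp [hb])
    simp only [phi]
    positivity

theorem phi_mem_Ioo {L : List ℤ} (hL : ∀ a ∈ L, 1 ≤ a) {y : ℝ} (hy : y ∈ Set.Ioo (0 : ℝ) 1) :
    phi L y ∈ Set.Ioo (0 : ℝ) 1 := by
  induction L with
  | nil => exact hy
  | cons a L ih =>
    have h1 : (1 : ℝ) ≤ a := by exact_mod_cast hL a (by simp)
    have h2 := ih fun b hb => hL b (by simp [hb])
    simp only [phi]
    have h3 : (0 : ℝ) < a + phi L y := by linarith [h2.1]
    exact ⟨by positivity, by rw [div_lt_one h3]; linarith [h2.1]⟩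

theorem phi_mem_Icc {L : List ℤ} (hL : ∀ a ∈ L, 2 ≤ a) {y : ℝ} (hy : y ∈ Set.Icc (0 : ℝ) 1) :
    phi L y ∈ Set.Icc (0 : ℝ) 1 := by
  induction L with
  | nil => exact hy
  | cons a L ih =>
    have h1 : (2 : ℝ) ≤ a := by exact_mod_cast hL a (by simp)
    have h2 := ih fun b hb => hL b (by simp [hb])
    simp only [phi]
    have h3 : (0 : ℝ) < a + phi L y := by linarith [h2.1]
    exact ⟨by positivity, by rw [div_le_one h3]; linarith [h2.1]⟩

theorem phi_mem_Ioo' {L : List ℤ} (hL : ∀ a ∈ L, 2 ≤ a) (hn : L ≠ []) {y : ℝ}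
    (hy : y ∈ Set.Icc (0 : ℝ) 1) : phi L y ∈ Set.Ioo (0 : ℝ) 1 := by
  cases L with
  | nil => exact absurd rfl hn
  | cons a L =>
    have h1 : (2 : ℝ) ≤ a := by exact_mod_cast hL a (by simp)
    have h2 := phi_mem_Icc (L := L) (fun b hb => hL b (by simp [hb])) hy
    simp only [phi]
    have h3 : (0 : ℝ) < a + phi L y := by linarith [h2.1]
    exact ⟨by positivity, by rw [div_lt_one h3]; linarith [h2.1]⟩

theorem continuous_phi {L : List ℤ} (hL : ∀ a ∈ L, 2 ≤ a) :
    Continuous fun y : Set.Icc (0 : ℝ) 1 => phi L y := by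
  induction L with
  | nil => exact continuous_subtype_val
  | cons a L ih =>
    have h1 : (2 : ℝ) ≤ a := by exact_mod_cast hL a (by simp)
    have h2 := ih fun b hb => hL b (by simp [hb])
    simp only [phi]
    refine continuous_const.div (continuous_const.add h2) fun y => ?_
    have := (phi_mem_Icc (L := L) (fun b hb => hL b (by simp [hb])) y.2).1
    linarith

theorem val_apps {S : Sd} {L : List ℤ} (hL : ∀ a ∈ L, 1 ≤ a) {y : ℝ} (hy : 0 ≤ y) :
    val (apps S L) y = val S (phi L y) := by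
  induction L generalizing S with
  | nil => rfl
  | cons a L ih =>
    have h1 : (1 : ℝ) ≤ a := by exact_mod_cast hL a (by simp)
    have h2 : ∀ b ∈ L, 1 ≤ b := fun b hb => hL b (by simp [hb])
    rw [apps_cons, ih h2, val_app]
    · rfl
    · linarith [phi_nonneg h2 hy]

theorem Ext.toList {k : ℕ} {S S' : Sd} (h : Ext k S S') :
    ∃ L : List ℤ, L ≠ [] ∧ (∀ a ∈ L, (k : ℤ) ≤ a) ∧ S' = apps S L := by
  induction h with
  | one a ha => exact ⟨[a], by simp, by simpa using ha, rfl⟩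
  | more S' a _ ha ih =>
    obtain ⟨L, h1, h2, h3⟩ := ih
    refine ⟨L ++ [a], by simp, ?_, ?_⟩
    · intro b hb
      rw [List.mem_append] at hb
      rcases hb with hb | hb
      · exact h2 b hb
      · rw [List.mem_singleton] at hb; rw [hb]; exact ha
    · rw [apps_append, ← h3]; rfl

theorem Ext.trans {k : ℕ} {S S' S'' : Sd} (h : Ext k S S') (h' : Ext k S' S'') :
    Ext k S S'' := by
  induction h' with
  | one a ha => exact Ext.more _ _ h ha
  | more S₁ a _ ha ih => exact Ext.more _ _ ih ha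

theorem Ext.weaken {k l : ℕ} (hkl : k ≤ l) {S S' : Sd} (h : Ext l S S') : Ext k S S' := by
  induction h with
  | one a ha => exact Ext.one _ (by omega)
  | more S₁ a _ ha ih => exact Ext.more _ _ ih (by omega)

theorem Ext.q_lt {k : ℕ} {S S' : Sd} (hS : Ok S) (h : Ext (k + 2) S S') : S.q + 1 ≤ S'.q ∧ Ok S' := by
  induction h with
  | one a ha =>
    push_cast at ha
    refine ⟨?_, hS.app (by omega)⟩
    have h1 := hS.q1
    have h2 := hS.t0
    show S.q + 1 ≤ a * S.q + S.t
    nlinarith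
  | more S₁ a _ ha ih =>
    push_cast at ha
    refine ⟨?_, ih.2.app (by omega)⟩
    have h1 := ih.2.q1
    have h2 := ih.2.t0
    show S.q + 1 ≤ a * S₁.q + S₁.t
    nlinarith [ih.1]

/-- Inverse limits of continuous maps. -/
theorem inv_lim {I : Type} [TopologicalSpace I] [CompactSpace I] [T2Space I] [Nonempty I]
    (f : ℕ → I → I) (hf : ∀ k, Continuous (f k)) : ∃ y : ℕ → I, ∀ k, y k = f k (y (k + 1)) := by
  let E : ℕ → Set (ℕ → I) := fun K => {y | ∀ k < K, y k = f k (y (k + 1))}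
  have hcl : ∀ K, IsClosed (E K) := by
    intro K
    have : E K = ⋂ k, ⋂ (_ : k < K), {y : ℕ → I | y k = f k (y (k + 1))} := by
      ext y; simp [E]
    rw [this]
    refine isClosed_iInter fun k => isClosed_iInter fun _ => ?_
    exact isClosed_eq (continuous_apply k) ((hf k).comp (continuous_apply (k + 1)))
  have hne : ∀ K, (E K).Nonempty := by
    intro K
    obtain ⟨i⟩ := ‹Nonempty I›
    let g : ℕ → I := fun n => Nat.rec i (fun n z => f (K - (n + 1)) z) n
    refine ⟨fun j => g (K - j), fun k hk => ?_⟩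
    obtain ⟨d, rfl⟩ := Nat.exists_eq_add_of_lt hk
    have e1 : k + d + 1 - k = d + 1 := by omega
    have e2 : k + d + 1 - (k + 1) = d := by omega
    have e3 : k + d + 1 - (d + 1) = k := by omega
    show g (k + d + 1 - k) = f k (g (k + d + 1 - (k + 1)))
    rw [e1, e2]
    show f (k + d + 1 - (d + 1)) (g d) = _
    rw [e3]
  have hanti : ∀ K, E (K + 1) ⊆ E K := fun K y hy k hk => hy k (by omega)
  obtain ⟨y, hy⟩ := IsCompact.nonempty_iInter_of_sequence_nonempty_isCompact_isClosed E hanti hne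
    (hcl 0).isCompact hcl
  exact ⟨y, fun k => (Set.mem_iInter.1 hy (k + 1)) k (Nat.lt_succ_self k)⟩

/-- The Gauss map. -/
noncomputable def T : ℝ → ℝ := fun y : ℝ => Int.fract (1 / y)

/-- Partial quotients. -/
noncomputable def dg (y : ℝ) (n : ℕ) : ℤ := ⌊1 / (T^[n] y)⌋

theorem T_cons (a : ℤ) {z : ℝ} (hz : z ∈ Set.Ioo (0 : ℝ) 1) : T (1 / (a + z)) = z := by
  rw [T, one_div_one_div, Int.fract_intCast_add, Int.fract_eq_self]
  exact ⟨hz.1.le, hz.2⟩

theorem floor_cons (a : ℤ) {z : ℝ} (hz : z ∈ Set.Ioo (0 : ℝ) 1) : ⌊1 / (1 / (a + z))⌋ = a := by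
  rw [one_div_one_div, Int.floor_intCast_add, Int.floor_eq_zero_iff.2 ⟨hz.1.le, hz.2⟩, add_zero]

theorem dg_cons_zero (a : ℤ) {z : ℝ} (hz : z ∈ Set.Ioo (0 : ℝ) 1) : dg (1 / (a + z)) 0 = a :=
  floor_cons a hz

theorem dg_cons_succ (a : ℤ) {z : ℝ} (hz : z ∈ Set.Ioo (0 : ℝ) 1) (n : ℕ) :
    dg (1 / (a + z)) (n + 1) = dg z n := by
  rw [dg, dg, Function.iterate_succ_apply, T_cons a hz]

/-- The first `N` digits are at least `m`. -/
def Lg (N : ℕ) (m : ℤ) (y : ℝ) : Prop := ∀ n < N, m ≤ dg y n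

theorem Lg.cons {N : ℕ} {m a : ℤ} {z : ℝ} (hz : z ∈ Set.Ioo (0 : ℝ) 1) (ha : m ≤ a)
    (h : Lg N m z) : Lg (N + 1) m (1 / (a + z)) := by
  intro n hn
  cases n with
  | zero => rw [dg_cons_zero a hz]; exact ha
  | succ n => rw [dg_cons_succ a hz]; exact h n (by omega)

theorem Lg.phi {N : ℕ} {m : ℤ} {L : List ℤ} (hL : ∀ a ∈ L, 1 ≤ a) (hm : ∀ a ∈ L, m ≤ a) {z : ℝ}
    (hz : z ∈ Set.Ioo (0 : ℝ) 1) (h : Lg N m z) : Lg (N + L.length) m (phi L z) := by
  induction L with
  | nil => exact h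
  | cons a L ih =>
    have h1 : ∀ b ∈ L, 1 ≤ b := fun b hb => hL b (by simp [hb])
    have h2 := ih h1 fun b hb => hm b (by simp [hb])
    exact h2.cons (phi_mem_Ioo h1 hz) (hm a (by simp))

theorem iter_phi {L : List ℤ} (hL : ∀ a ∈ L, 1 ≤ a) {z : ℝ} (hz : z ∈ Set.Ioo (0 : ℝ) 1) :
    T^[L.length] (phi L z) = z := by
  induction L with
  | nil => rfl
  | cons a L ih =>
    have h1 : ∀ b ∈ L, 1 ≤ b := fun b hb => hL b (by simp [hb])
    rw [List.length_cons, Function.iterate_succ_apply]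
    show T^[L.length] (T (1 / (a + phi L z))) = z
    rw [T_cons a (phi_mem_Ioo h1 hz)]
    exact ih h1

/-- The digits tend to infinity. -/
def Gd (y : ℝ) : Prop := Filter.Tendsto (dg y) Filter.atTop Filter.atTop

theorem Gd.of_iter {y : ℝ} (m : ℕ) (h : Gd (T^[m] y)) : Gd y := by
  have e : ∀ n, dg y (n + m) = dg (T^[m] y) n := by
    intro n
    rw [dg, dg, Function.iterate_add_apply]
  rw [Gd, ← Filter.tendsto_add_atTop_iff_nat m]
  exact h.congr fun n => (e n).symm

theorem Gd.phi {L : List ℤ} (hL : ∀ a ∈ L, 1 ≤ a) {z : ℝ} (hz : z ∈ Set.Ioo (0 : ℝ) 1)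
    (h : Gd z) : Gd (phi L z) := by
  refine Gd.of_iter L.length ?_
  rw [iter_phi hL hz]
  exact h

/-- Blocks of digits which tend to infinity. -/
theorem gd_of_blocks {L : ℕ → List ℤ} (hn : ∀ k, L k ≠ []) (hL : ∀ k, ∀ a ∈ L k, (k : ℤ) + 2 ≤ a)
    {y : ℕ → ℝ} (hy : ∀ k, y k ∈ Set.Ioo (0 : ℝ) 1) (he : ∀ k, y k = phi (L k) (y (k + 1))) :
    Gd (y 0) := by
  have h1 : ∀ k, ∀ a ∈ L k, 1 ≤ a := fun k a ha => by have := hL k a ha; omega
  have key : ∀ N k : ℕ, Lg N ((k : ℤ) + 2) (y k) := by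
    intro N
    induction N with
    | zero => intro k n hn; omega
    | succ N ih =>
      intro k
      have h2 : Lg N ((k : ℤ) + 2) (y (k + 1)) := fun n hn => by
        have := ih (k + 1) n hn
        push_cast at this
        omega
      have h3 := h2.phi (h1 k) (hL k) (hy (k + 1))
      rw [← he k] at h3
      have hlen : 1 ≤ (L k).length := List.length_pos_iff.2 (hn k)
      exact fun n hn => h3 n (by omega)
  have hit : ∀ k, ∃ m, T^[m] (y 0) = y k := by
    intro k
    induction k with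
    | zero => exact ⟨0, rfl⟩
    | succ k ih =>
      obtain ⟨m, hm⟩ := ih
      refine ⟨(L k).length + m, ?_⟩
      rw [Function.iterate_add_apply, hm, he k]
      exact iter_phi (h1 k) (hy (k + 1))
  rw [Gd, Filter.tendsto_atTop]
  intro b
  obtain ⟨m, hm⟩ := hit b.toNat
  filter_upwards [Filter.eventually_ge_atTop m] with n hn
  obtain ⟨d, rfl⟩ := Nat.exists_eq_add_of_le hn
  have e : dg (y 0) (m + d) = dg (y b.toNat) d := by
    rw [dg, dg, add_comm m d, Function.iterate_add_apply, hm]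
  rw [e]
  have := key (d + 1) b.toNat d (by omega)
  omega

end Pool.Agent.H8.GG
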