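import Pool.Agent.H8.GG.Dig

/-!
# Every real number in `(0, 1]` is a sum of two numbers whose partial quotients tend to infinity
-/

set_option autoImplicit false

namespace Pool.Agent.H8.GG

/-- Both orders. -/
def Inv (x : ℝ) (k : ℕ) (S₁ S₂ : Sd) : Prop := Base x k S₁ S₂ ∨ Base x k S₂ S₁

theorem Base.weaken {x : ℝ} {k : ℕ} {A P : Sd} (h : Base x (k + 1) A P) : Base x k A P := by
  obtain ⟨h1, h2, h3, h4, h5, h6⟩ := h
  refine ⟨h1, h2, h3, h4, h5, le_trans ?_ h6⟩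
  have hq0 : (0 : ℝ) < A.q := by exact_mod_cast lt_of_lt_of_le one_pos h1.q1
  have hs0 : (0 : ℝ) < P.q := by exact_mod_cast lt_of_lt_of_le one_pos h2.q1
  refine mul_le_mul_of_nonneg_right ?_ (by positivity)
  push_cast
  linarith

theorem superStep {x : ℝ} (hx : Irrational x) {k : ℕ} {A P : Sd} (h : Base x k A P) :
    ∃ A' P', Ext (k + 2) A A' ∧ Ext (k + 2) P P' ∧ Inv x (k + 1) A' P' := by
  rcases macroStep hx h with ⟨A', P', h1, h2, h3⟩ | ⟨A', h1, h3⟩
  · exact ⟨A', P', h1, h2, Or.inl h3⟩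
  · rcases macroStep hx h3 with ⟨P', A'', g1, g2, g3⟩ | ⟨P', g1, g3⟩
    · exact ⟨A'', P', h1.trans (g2.weaken (by omega)), g1.weaken (by omega), Or.inr g3.weaken⟩
    · exact ⟨A', P', h1, g1.weaken (by omega), Or.inl g3.weaken⟩

theorem invStep {x : ℝ} (hx : Irrational x) {k : ℕ} {A P : Sd} (h : Inv x k A P) :
    ∃ A' P', Ext (k + 2) A A' ∧ Ext (k + 2) P P' ∧ Inv x (k + 1) A' P' := by
  rcases h with h | h
  · exact superStep hx h
  · obtain ⟨A', P', h1, h2, h3⟩ := superStep hx h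
    exact ⟨P', A', h2, h1, h3.symm⟩

theorem val_sub_cv {S : Sd} (h : Ok S) {y : ℝ} (h0 : 0 ≤ y) :
    val S y - cv S = S.e * y / (S.q * (S.q + S.t * y)) := by
  have hq : (1 : ℝ) ≤ S.q := by exact_mod_cast h.q1
  have ht : (0 : ℝ) ≤ S.t := by exact_mod_cast h.t0
  have hq0 : (0 : ℝ) < S.q := by linarith
  have hd : (0 : ℝ) < S.q + S.t * y := by positivity
  have h4 : (S.r : ℝ) * S.q - S.p * S.t = S.e := by exact_mod_cast h.det
  rw [val, cv, ← h4]
  field_simp
  ring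

theorem Inv.df_le {x : ℝ} {k : ℕ} {A P : Sd} (h : Inv x k A P) :
    Ok A ∧ Ok P ∧ |x - cv A - cv P| ≤ 1 / (k + 4 : ℝ) := by
  have key : ∀ A P : Sd, Base x k A P → |x - cv A - cv P| ≤ 1 / (k + 4 : ℝ) := by
    intro A P h
    obtain ⟨h1, h2, h3, h4, h5, h6⟩ := h
    have hq0 : (1 : ℝ) ≤ A.q := by exact_mod_cast h1.q1
    have hs0 : (1 : ℝ) ≤ P.q := by exact_mod_cast h2.q1
    have hk : (0 : ℝ) < k + 4 := by positivity
    have e : |x - cv A - cv P| = df x A P := by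
      rw [df] at h4 ⊢
      rcases h1.e1 with h | h
      · rw [h] at h4 ⊢
        push_cast at h4 ⊢
        rw [one_mul] at h4 ⊢
        exact abs_of_pos h4
      · rw [h] at h4 ⊢
        push_cast at h4 ⊢
        rw [abs_of_neg (by linarith)]
        ring
    rw [e, le_div_iff₀ hk]
    have h7 : df x A P ≤ A.q * P.q * df x A P := by
      have : (1 : ℝ) ≤ A.q * P.q := by nlinarith
      nlinarith
    calc df x A P * (k + 4) ≤ (A.q * P.q * df x A P) * (k + 4) :=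
          mul_le_mul_of_nonneg_right h7 hk.le
      _ ≤ 1 := by linarith
  rcases h with h | h
  · exact ⟨h.okA, h.okP, key A P h⟩
  · refine ⟨h.okP, h.okA, ?_⟩
    have := key P A h
    rwa [show x - cv A - cv P = x - cv P - cv A by ring]

/-- The continued fraction of an irrational number, even number of digits. -/
theorem prefix_irr {x : ℝ} (hx : Irrational x) (h0 : 0 < x) (h1 : x < 1) (N : ℕ) :
    ∃ (L : List ℤ) (y : ℝ), (∀ a ∈ L, 1 ≤ a) ∧ Irrational y ∧ y ∈ Set.Ioo (0 : ℝ) 1 ∧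
      x = phi L y ∧ Ok (apps Sd.nil L) ∧ (apps Sd.nil L).e = 1 ∧ (N : ℤ) + 1 ≤ (apps Sd.nil L).q := by
  have one : ∀ y : ℝ, Irrational y → y ∈ Set.Ioo (0 : ℝ) 1 →
      ∃ (a : ℤ) (z : ℝ), 1 ≤ a ∧ Irrational z ∧ z ∈ Set.Ioo (0 : ℝ) 1 ∧ y = 1 / (a + z) := by
    intro y hy hy1
    have hi : Irrational (1 / y) := by rw [one_div]; exact hy.inv
    have hz : Irrational (Int.fract (1 / y)) := by
      rw [← Int.self_sub_floor]
      exact hi.sub_intCast _
    have h1y : 1 < 1 / y := by rw [lt_div_iff₀ hy1.1]; linarith [hy1.2]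
    refine ⟨⌊1 / y⌋, Int.fract (1 / y), ?_, hz, ⟨?_, Int.fract_lt_one _⟩, ?_⟩
    · rw [Int.le_floor]; push_cast; exact h1y.le
    · rcases (Int.fract_nonneg (1 / y)).lt_or_eq with h | h
      · exact h
      · exfalso
        rw [← h] at hz
        exact hz ⟨0, by simp⟩
    · rw [Int.floor_add_fract, one_div_one_div]
  induction N with
  | zero =>
    exact ⟨[], x, by simp, hx, ⟨h0, h1⟩, rfl, Ok.nil, rfl, by simp [apps, Sd.nil]⟩
  | succ N ih =>
    obtain ⟨L, y, hL, hy, hy1, hxy, hok, he, hq⟩ := ih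
    obtain ⟨a, z, ha, hz, hz1, hyz⟩ := one y hy hy1
    obtain ⟨b, w, hb, hw, hw1, hzw⟩ := one z hz hz1
    refine ⟨L ++ [a, b], w, ?_, hw, hw1, ?_, ?_, ?_, ?_⟩
    · intro c hc
      simp only [List.mem_append, List.mem_cons, List.not_mem_nil, or_false] at hc
      rcases hc with hc | hc | hc
      · exact hL c hc
      · rw [hc]; exact ha
      · rw [hc]; exact hb
    · rw [phi_append, hxy]
      simp only [phi]
      rw [hyz, hzw]
    · rw [apps_append]
      exact (hok.app ha).app hb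
    · rw [apps_append]
      show - -(apps Sd.nil L).e = 1
      rw [he]; norm_num
    · rw [apps_append]
      show ((N + 1 : ℕ) : ℤ) + 1 ≤ b * (a * (apps Sd.nil L).q + (apps Sd.nil L).t) + (apps Sd.nil L).q
      have h1 := hok.q1
      have h2 := hok.t0
      have h3 : 1 ≤ a * (apps Sd.nil L).q + (apps Sd.nil L).t := by nlinarith
      have h4 : 1 ≤ b * (a * (apps Sd.nil L).q + (apps Sd.nil L).t) := by nlinarith
      push_cast
      linarith

/-- The irrational case. -/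
theorem irrational_case {x : ℝ} (hx : Irrational x) (h0 : 0 < x) (h1 : x < 1) :
    ∃ g₁ g₂ : ℝ, g₁ ∈ Set.Ioo (0 : ℝ) 1 ∧ g₂ ∈ Set.Ioo (0 : ℝ) 1 ∧ Gd g₁ ∧ Gd g₂ ∧
      x = g₁ + g₂ := by
  obtain ⟨L0, y, hL0, -, hy1, hxy, hok, he, hq⟩ := prefix_irr hx h0 h1 3
  set S := apps Sd.nil L0 with hS
  have hq4 : (4 : ℝ) ≤ S.q := by
    have : (4 : ℤ) ≤ S.q := by push_cast at hq; omega
    exact_mod_cast this
  have ht : (0 : ℝ) ≤ S.t := by exact_mod_cast hok.t0
  have hyp := hy1.1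
  have hd : (0 : ℝ) < S.q + S.t * y := by positivity
  have hval : val S y = x := by rw [hS, val_apps hL0 hyp.le, val_nil, ← hxy]
  have hdf : df x Sd.nil S = y / (S.q * (S.q + S.t * y)) := by
    have e := val_sub_cv hok hyp.le
    rw [hval, he] at e
    rw [df]
    have : cv Sd.nil = 0 := by simp [cv, Sd.nil]
    rw [this, sub_zero, e]
    simp [Sd.nil]
  have hbase : Base x 0 Sd.nil S := by
    refine ⟨Ok.nil, hok, by rw [he]; rfl, ?_, ?_, ?_⟩
    · rw [hdf]; positivity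
    · show 1 ≤ S.q
      exact hok.q1
    · rw [hdf]
      have h2 : ((Sd.nil.q : ℤ) : ℝ) = 1 := by simp [Sd.nil]
      rw [h2, one_mul]
      have h3 : (S.q : ℝ) * (y / (S.q * (S.q + S.t * y))) = y / (S.q + S.t * y) := by
        field_simp
      rw [h3]
      push_cast
      rw [zero_add, ← mul_div_assoc, div_le_one hd]
      have h4 : 0 ≤ S.t * y := by positivity
      linarith [hy1.2]
  -- the sequence of sides
  have hstep : ∀ (k : ℕ) (s : {s : Sd × Sd // Inv x k s.1 s.2}),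
      ∃ s' : {s : Sd × Sd // Inv x (k + 1) s.1 s.2},
        Ext (k + 2) s.1.1 s'.1.1 ∧ Ext (k + 2) s.1.2 s'.1.2 := by
    intro k s
    obtain ⟨A', P', e1, e2, e3⟩ := invStep hx s.2
    exact ⟨⟨(A', P'), e3⟩, e1, e2⟩
  choose f hf1 hf2 using hstep
  let sq : (k : ℕ) → {s : Sd × Sd // Inv x k s.1 s.2} :=
    fun k => Nat.rec ⟨(Sd.nil, S), Or.inl hbase⟩ (fun k s => f k s) k
  let A : ℕ → Sd := fun k => (sq k).1.1
  let P : ℕ → Sd := fun k => (sq k).1.2
  have hinv : ∀ k, Inv x k (A k) (P k) := fun k => (sq k).2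
  have hA : ∀ k, Ext (k + 2) (A k) (A (k + 1)) := fun k => hf1 k (sq k)
  have hP : ∀ k, Ext (k + 2) (P k) (P (k + 1)) := fun k => hf2 k (sq k)
  have side : ∀ B : ℕ → Sd, (∀ k, Ok (B k)) → (∀ k, Ext (k + 2) (B k) (B (k + 1))) →
      ∃ y : ℕ → ℝ, (∀ k, y k ∈ Set.Ioo (0 : ℝ) 1) ∧ Gd (y 0) ∧
        ∀ k, |val (B 0) (y 0) - cv (B k)| ≤ 1 / (k + 1 : ℝ) := by
    intro B hB hE
    choose L hL1 hL2 hL3 using fun k => (hE k).toList
    have hL2' : ∀ k, ∀ a ∈ L k, (k : ℤ) + 2 ≤ a := by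
      intro k a ha
      have := hL2 k a ha
      push_cast at this
      exact this
    have h2 : ∀ k, ∀ a ∈ L k, 2 ≤ a := fun k a ha => by have := hL2' k a ha; omega
    have h1 : ∀ k, ∀ a ∈ L k, 1 ≤ a := fun k a ha => by have := hL2' k a ha; omega
    obtain ⟨z, hz⟩ := inv_lim (I := Set.Icc (0 : ℝ) 1)
      (fun k y => ⟨phi (L k) y, phi_mem_Icc (h2 k) y.2⟩)
      (fun k => (continuous_phi (h2 k)).subtype_mk _)
    have hz' : ∀ k, (z k : ℝ) = phi (L k) (z (k + 1)) := fun k => congrArg Subtype.val (hz k)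
    have hzI : ∀ k, (z k : ℝ) ∈ Set.Ioo (0 : ℝ) 1 := by
      intro k
      rw [hz' k]
      exact phi_mem_Ioo' (h2 k) (hL1 k) (z (k + 1)).2
    refine ⟨fun k => z k, hzI, gd_of_blocks hL1 hL2' hzI hz', ?_⟩
    intro k
    have hv : ∀ k, val (B 0) (z 0) = val (B k) (z k) := by
      intro k
      induction k with
      | zero => rfl
      | succ k ih => rw [ih, hz' k, hL3 k, val_apps (h1 k) (hzI (k + 1)).1.le]
    have hqk : ∀ k : ℕ, (k : ℤ) + 1 ≤ (B k).q := by
      intro k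
      induction k with
      | zero => simpa using (hB 0).q1
      | succ k ih =>
        have := ((hE k).q_lt (hB k)).1
        push_cast
        omega
    have h3 := abs_val_sub_cv (hB k) (hzI k).1.le (hzI k).2.le
    have h4 : (k + 1 : ℝ) ≤ (B k).q := by exact_mod_cast hqk k
    show |val (B 0) (z 0) - cv (B k)| ≤ 1 / (k + 1 : ℝ)
    rw [hv k]
    exact h3.trans (one_div_le_one_div_of_le (by positivity) h4)
  obtain ⟨u, hu1, hu2, hu3⟩ := side A (fun k => (hinv k).df_le.1) hA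
  obtain ⟨v, hv1, hv2, hv3⟩ := side P (fun k => (hinv k).df_le.2.1) hP
  refine ⟨u 0, phi L0 (v 0), hu1 0, phi_mem_Ioo hL0 (hv1 0), hu2, hv2.phi hL0 (hv1 0), ?_⟩
  have e1 : val (A 0) (u 0) = u 0 := val_nil (u 0)
  have e2 : val (P 0) (v 0) = phi L0 (v 0) := by
    show val S (v 0) = _
    rw [hS, val_apps hL0 (hv1 0).1.le, val_nil]
  have hlim : ∀ k : ℕ, |x - (u 0 + phi L0 (v 0))| ≤ 3 / (k + 1 : ℝ) := by
    intro k
    have a1 := hu3 k
    have a2 := hv3 k
    have a3 := (hinv k).df_le.2.2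
    rw [e1] at a1
    rw [e2] at a2
    have a4 : (1 : ℝ) / (k + 4) ≤ 1 / (k + 1) := one_div_le_one_div_of_le (by positivity) (by linarith)
    have e3 : x - (u 0 + phi L0 (v 0))
        = (x - cv (A k) - cv (P k)) - (u 0 - cv (A k)) - (phi L0 (v 0) - cv (P k)) := by ring
    rw [e3]
    have a5 := abs_sub (x - cv (A k) - cv (P k) - (u 0 - cv (A k))) (phi L0 (v 0) - cv (P k))
    have a6 := abs_sub (x - cv (A k) - cv (P k)) (u 0 - cv (A k))
    have e4 : (3 : ℝ) / (k + 1) = 1 / (k + 1) + 1 / (k + 1) + 1 / (k + 1) := by ring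
    rw [e4]
    linarith
  by_contra hne
  have hpos : 0 < |x - (u 0 + phi L0 (v 0))| := abs_pos.2 (sub_ne_zero.2 hne)
  obtain ⟨k, hk⟩ := exists_nat_one_div_lt (show (0 : ℝ) < |x - (u 0 + phi L0 (v 0))| / 3 by
    positivity)
  have := hlim k
  have e5 : (3 : ℝ) / (k + 1) = 3 * (1 / (k + 1)) := by ring
  rw [e5] at this
  linarith

end Pool.Agent.H8.GG
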