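import Pool.Agent.H8.GG.Fin

/-!
# The rational case
-/

set_option autoImplicit false

namespace Pool.Agent.H8.GG

/-- Finite continued fractions of rational numbers, with prescribed parity. -/
theorem prefix_rat (n : ℕ) : ∀ m : ℕ, 1 ≤ m → m ≤ n →
    (∃ L : List ℤ, (∀ a ∈ L, 1 ≤ a) ∧ (m : ℝ) / n = phi L 0 ∧ Odd L.length) ∧
    (m < n → ∃ L : List ℤ, (∀ a ∈ L, 1 ≤ a) ∧ (m : ℝ) / n = phi L 0 ∧ Even L.length) := by
  induction n using Nat.strong_induction_on with
  | _ n ih =>
    intro m hm hmn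
    have hm0 : (0 : ℝ) < m := by exact_mod_cast hm
    have hn0 : (0 : ℝ) < n := by
      have : 0 < n := by omega
      exact_mod_cast this
    have hdm := Nat.div_add_mod n m
    have hq1 : 1 ≤ n / m := (Nat.one_le_div_iff (by omega)).2 hmn
    have hlt : n % m < m := Nat.mod_lt _ (by omega)
    have hdm' : (m : ℝ) * (n / m : ℕ) + (n % m : ℕ) = n := by exact_mod_cast hdm
    have heq : (m : ℝ) / n = 1 / (((n / m : ℕ) : ℤ) + ((n % m : ℕ) : ℝ) / m) := by
      have h1 : ((n / m : ℕ) : ℝ) + ((n % m : ℕ) : ℝ) / m = n / m := by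
        rw [eq_div_iff hm0.ne', add_mul, div_mul_cancel₀ _ hm0.ne']
        linarith
      rw [Int.cast_natCast, h1, one_div_div]
    rcases Nat.eq_zero_or_pos (n % m) with h0 | h0
    · -- `m / n = 1 / a`
      rw [h0] at heq
      simp only [Nat.cast_zero, zero_div, add_zero] at heq
      refine ⟨⟨[((n / m : ℕ) : ℤ)], ?_, ?_, ?_⟩, fun hlt' => ⟨[((n / m : ℕ) : ℤ) - 1, 1], ?_, ?_, ?_⟩⟩
      · intro a ha
        rw [List.mem_singleton] at ha
        rw [ha]; exact_mod_cast hq1
      · simp only [phi, add_zero]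
        exact heq
      · simp
      · intro a ha
        simp only [List.mem_cons, List.not_mem_nil, or_false] at ha
        have h2 : 2 ≤ n / m := by
          by_contra hcon
          have h3 : n / m = 1 := by omega
          rw [h3, h0] at hdm
          omega
        rcases ha with ha | ha
        · rw [ha]; omega
        · rw [ha]
      · simp only [phi]
        rw [heq]
        push_cast
        norm_num
      · exact ⟨1, rfl⟩
    · have hm' : m ≤ n := hmn
      rcases Nat.lt_or_ge m n with hmn' | hmn'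
      · obtain ⟨hodd, heven⟩ := ih m hmn' (n % m) h0 hlt.le
        have cons : ∀ L : List ℤ, (∀ a ∈ L, 1 ≤ a) → ((n % m : ℕ) : ℝ) / m = phi L 0 →
            (∀ a ∈ ((n / m : ℕ) : ℤ) :: L, 1 ≤ a) ∧
              (m : ℝ) / n = phi (((n / m : ℕ) : ℤ) :: L) 0 := by
          intro L hL hL2
          refine ⟨?_, ?_⟩
          · intro a ha
            rw [List.mem_cons] at ha
            rcases ha with ha | ha
            · rw [ha]; exact_mod_cast hq1
            · exact hL a ha
          · rw [heq, hL2]; rfl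
        refine ⟨?_, fun _ => ?_⟩
        · obtain ⟨L, h1, h2, h3⟩ := heven hlt
          exact ⟨_, (cons L h1 h2).1, (cons L h1 h2).2, by
            rw [List.length_cons]; exact h3.add_one⟩
        · obtain ⟨L, h1, h2, h3⟩ := hodd
          exact ⟨_, (cons L h1 h2).1, (cons L h1 h2).2, by
            rw [List.length_cons]; exact h3.add_one⟩
      · have : m = n := by omega
        rw [this, Nat.mod_self] at h0
        omega

theorem ok_apps {S : Sd} (hS : Ok S) {L : List ℤ} (hL : ∀ a ∈ L, 1 ≤ a) : Ok (apps S L) := by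
  induction L generalizing S with
  | nil => exact hS
  | cons a L ih =>
    rw [apps_cons]
    exact ih (hS.app (hL a (by simp))) fun b hb => hL b (by simp [hb])

theorem sign_apps (S : Sd) (L : List ℤ) : (apps S L).e = (-1) ^ L.length * S.e := by
  induction L generalizing S with
  | nil => simp [apps]
  | cons a L ih =>
    rw [apps_cons, ih, List.length_cons, pow_succ]
    simp only [app]
    ring

theorem rational_case {m n : ℕ} (hm : 1 ≤ m) (hmn : m ≤ n) :
    ∃ g₁ g₂ : ℝ, g₁ ∈ Set.Ioo (0 : ℝ) 1 ∧ g₂ ∈ Set.Ioo (0 : ℝ) 1 ∧ Gd g₁ ∧ Gd g₂ ∧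
      (m : ℝ) / n = g₁ + g₂ := by
  obtain ⟨L0, hL0, hx, hodd⟩ := (prefix_rat n m hm hmn).1
  set S := apps Sd.nil L0 with hS
  have hok : Ok S := ok_apps Ok.nil hL0
  have he : S.e = -1 := by
    rw [hS, sign_apps, hodd.neg_one_pow]
    rfl
  have hq1 : 1 ≤ S.q := hok.q1
  have hqR : (1 : ℝ) ≤ S.q := by exact_mod_cast hq1
  have hq0 : (0 : ℝ) < S.q := by linarith
  have ht : (0 : ℝ) ≤ S.t := by exact_mod_cast hok.t0
  -- the infinite fractions
  have hden : ∀ (k : ℕ) (y : Set.Icc (0 : ℝ) 1), 0 < (S.q : ℝ) ^ 2 * ((k : ℝ) + 2 + y) := by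
    intro k y
    have := y.2.1
    positivity
  have hmem : ∀ (k : ℕ) (y : Set.Icc (0 : ℝ) 1),
      1 / ((S.q : ℝ) ^ 2 * ((k : ℝ) + 2 + y)) ∈ Set.Icc (0 : ℝ) 1 := by
    intro k y
    have h1 := hden k y
    refine ⟨by positivity, ?_⟩
    rw [div_le_one h1]
    have := y.2.1
    have h2 : (1 : ℝ) ≤ (k : ℝ) + 2 + y := by
      have : (0 : ℝ) ≤ k := Nat.cast_nonneg k
      linarith
    nlinarith
  obtain ⟨z, hz⟩ := inv_lim (I := Set.Icc (0 : ℝ) 1)
    (fun k y => ⟨1 / ((S.q : ℝ) ^ 2 * ((k : ℝ) + 2 + y)), hmem k y⟩)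
    (fun k => Continuous.subtype_mk (continuous_const.div
      (continuous_const.mul (continuous_const.add continuous_subtype_val))
        fun y => (hden k y).ne') _)
  have hz' : ∀ k, (z k : ℝ) = 1 / ((S.q : ℝ) ^ 2 * ((k : ℝ) + 2 + z (k + 1))) :=
    fun k => congrArg Subtype.val (hz k)
  -- `u k = z k`, `v k = q² z k`
  let v : ℕ → ℝ := fun k => (S.q : ℝ) ^ 2 * z k
  have hv : ∀ k, v k = 1 / ((((k : ℤ) + 2 : ℤ) : ℝ) + z (k + 1)) := by
    intro k
    have h1 := (z (k + 1)).2.1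
    show (S.q : ℝ) ^ 2 * z k = _
    rw [hz' k]
    push_cast
    field_simp
  have hu : ∀ k, (z k : ℝ) = 1 / (((S.q ^ 2 * ((k : ℤ) + 2) : ℤ) : ℝ) + v (k + 1)) := by
    intro k
    show (z k : ℝ) = 1 / (((S.q ^ 2 * ((k : ℤ) + 2) : ℤ) : ℝ) + (S.q : ℝ) ^ 2 * z (k + 1))
    rw [hz' k]
    push_cast
    congr 1
    ring
  have hzI : ∀ k, (z k : ℝ) ∈ Set.Ioo (0 : ℝ) 1 := by
    intro k
    have h1 := hden k (z (k + 1))
    have h3 := (z (k + 1)).2.1
    rw [hz' k]
    refine ⟨by positivity, ?_⟩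
    rw [div_lt_one h1]
    have h2 : (1 : ℝ) < (k : ℝ) + 2 + z (k + 1) := by
      have : (0 : ℝ) ≤ k := Nat.cast_nonneg k
      linarith
    nlinarith
  have hvI : ∀ k, v k ∈ Set.Ioo (0 : ℝ) 1 := by
    intro k
    have h3 := (z (k + 1)).2.1
    have h2 : (1 : ℝ) < (((k : ℤ) + 2 : ℤ) : ℝ) + z (k + 1) := by
      have : (0 : ℝ) ≤ k := Nat.cast_nonneg k
      push_cast
      linarith
    rw [hv k]
    refine ⟨by positivity, ?_⟩
    rw [div_lt_one (by linarith)]
    exact h2
  have hsq : 1 ≤ S.q ^ 2 := by nlinarith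
  -- the digits
  have key : ∀ N k : ℕ, Lg N ((k : ℤ) + 2) (z k) ∧ Lg N ((k : ℤ) + 2) (v k) := by
    intro N
    induction N with
    | zero => exact fun k => ⟨fun n hn => by omega, fun n hn => by omega⟩
    | succ N ih =>
      intro k
      obtain ⟨i1, i2⟩ := ih (k + 1)
      have w1 : Lg N ((k : ℤ) + 2) (z (k + 1)) := fun n hn => by
        have := i1 n hn; push_cast at this; omega
      have w2 : Lg N ((k : ℤ) + 2) (v (k + 1)) := fun n hn => by
        have := i2 n hn; push_cast at this; omega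
      refine ⟨?_, ?_⟩
      · rw [hu k]
        exact w2.cons (hvI (k + 1)) (by nlinarith)
      · rw [hv k]
        exact w1.cons (hzI (k + 1)) le_rfl
  have hit : ∀ k, (∃ m, T^[m] (v 0) = v k ∨ T^[m] (v 0) = z k) := by
    intro k
    induction k with
    | zero => exact ⟨0, Or.inl rfl⟩
    | succ k ih =>
      obtain ⟨m, hm | hm⟩ := ih
      · refine ⟨m + 1, Or.inr ?_⟩
        rw [Function.iterate_succ_apply', hm, hv k, T_cons _ (hzI (k + 1))]
      · refine ⟨m + 1, Or.inl ?_⟩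
        rw [Function.iterate_succ_apply', hm, hu k, T_cons _ (hvI (k + 1))]
  have hgd : Gd (v 0) := by
    rw [Gd, Filter.tendsto_atTop]
    intro b
    obtain ⟨m, hm⟩ := hit b.toNat
    filter_upwards [Filter.eventually_ge_atTop m] with n hn
    obtain ⟨d, rfl⟩ := Nat.exists_eq_add_of_le hn
    have e : dg (v 0) (m + d) = dg (T^[m] (v 0)) d := by
      rw [dg, dg, add_comm m d, Function.iterate_add_apply]
    rw [e]
    rcases hm with hm | hm
    · rw [hm]
      have := (key (d + 1) b.toNat).2 d (by omega)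
      omega
    · rw [hm]
      have := (key (d + 1) b.toNat).1 d (by omega)
      omega
  have hgv1 : Gd (v 1) := by
    -- `v 1 = 1 / (3 + z 2)`; the digits of `v 1`
    have hit1 : ∀ k, (∃ m, T^[m] (v 1) = v (k + 1) ∨ T^[m] (v 1) = z (k + 1)) := by
      intro k
      induction k with
      | zero => exact ⟨0, Or.inl rfl⟩
      | succ k ih =>
        obtain ⟨m, hm | hm⟩ := ih
        · refine ⟨m + 1, Or.inr ?_⟩
          rw [Function.iterate_succ_apply', hm, hv (k + 1), T_cons _ (hzI (k + 1 + 1))]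
        · refine ⟨m + 1, Or.inl ?_⟩
          rw [Function.iterate_succ_apply', hm, hu (k + 1), T_cons _ (hvI (k + 1 + 1))]
    rw [Gd, Filter.tendsto_atTop]
    intro b
    obtain ⟨m, hm⟩ := hit1 b.toNat
    filter_upwards [Filter.eventually_ge_atTop m] with n hn
    obtain ⟨d, rfl⟩ := Nat.exists_eq_add_of_le hn
    have e : dg (v 1) (m + d) = dg (T^[m] (v 1)) d := by
      rw [dg, dg, add_comm m d, Function.iterate_add_apply]
    rw [e]
    rcases hm with hm | hm
    · rw [hm]
      have := (key (d + 1) (b.toNat + 1)).2 d (by omega)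
      push_cast at this
      omega
    · rw [hm]
      have := (key (d + 1) (b.toNat + 1)).1 d (by omega)
      push_cast at this
      omega
  -- the two numbers
  have hden2 : (0 : ℝ) < S.q ^ 2 * 2 + S.q * S.t + v 1 := by
    have := (hvI 1).1
    positivity
  refine ⟨1 / (((S.q ^ 2 * 2 + S.q * S.t : ℤ) : ℝ) + v 1), phi L0 (v 0), ?_,
    phi_mem_Ioo hL0 (hvI 0), ?_, hgd.phi hL0 (hvI 0), ?_⟩
  · have h1 : (0 : ℝ) < ((S.q ^ 2 * 2 + S.q * S.t : ℤ) : ℝ) + v 1 := by
      push_cast; exact hden2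
    refine ⟨by positivity, ?_⟩
    rw [div_lt_one h1]
    push_cast
    have := (hvI 1).1
    have h3 : 0 ≤ (S.q : ℝ) * S.t := by positivity
    nlinarith
  · refine Gd.of_iter 1 ?_
    rw [Function.iterate_one, T_cons _ (hvI 1)]
    exact hgv1
  · have e1 : phi L0 (v 0) = val S (v 0) := by
      rw [hS, val_apps hL0 (hvI 0).1.le, val_nil]
    have e2 : cv S = (m : ℝ) / n := by
      have h1 : val S 0 = phi L0 0 := by rw [hS, val_apps hL0 le_rfl, val_nil]
      rw [hx, ← h1, val, cv]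
      simp
    have e3 := val_sub_cv hok (hvI 0).1.le
    rw [he] at e3
    have e4 : val S (v 0) = (m : ℝ) / n + (-1 : ℤ) * v 0 / (S.q * (S.q + S.t * v 0)) := by
      rw [← e2]; linarith
    rw [e1, e4]
    have h2 := (z 1).2.1
    have h3 : v 0 = 1 / (2 + (z 1 : ℝ)) := by
      have := hv 0
      push_cast at this
      exact this
    have h4 : v 1 = (S.q : ℝ) ^ 2 * z 1 := rfl
    rw [h3, h4]
    push_cast
    have h5 : (0 : ℝ) < 2 + z 1 := by linarith
    have h6 : (0 : ℝ) < S.q * (2 + z 1) + S.t := by positivity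
    have e5 : (1 : ℝ) / (S.q ^ 2 * 2 + S.q * S.t + S.q ^ 2 * z 1)
        = 1 / (S.q * (S.q * (2 + z 1) + S.t)) := by
      congr 1; ring
    have e6 : -1 * (1 / (2 + (z 1 : ℝ))) / (S.q * (S.q + S.t * (1 / (2 + z 1))))
        = - (1 / (S.q * (S.q * (2 + z 1) + S.t))) := by
      have : (S.q : ℝ) + S.t * (1 / (2 + z 1)) = (S.q * (2 + z 1) + S.t) / (2 + z 1) := by
        field_simp
      rw [this]
      field_simp
    rw [e5, e6]
    ring

/-- The theorem. -/
theorem main (x : ℝ) (h0 : 0 < x) (h1 : x ≤ 1) :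
    ∃ g₁ g₂ : ℝ, g₁ ∈ Set.Ioo (0 : ℝ) 1 ∧ g₂ ∈ Set.Ioo (0 : ℝ) 1 ∧ Gd g₁ ∧ Gd g₂ ∧
      x = g₁ + g₂ := by
  by_cases hx : Irrational x
  · refine irrational_case hx h0 (lt_of_le_of_ne h1 ?_)
    intro h
    rw [h] at hx
    exact hx ⟨1, by simp⟩
  · rw [Irrational, not_not] at hx
    obtain ⟨q, rfl⟩ := hx
    have hq0 : 0 < q := by exact_mod_cast h0
    have hq1 : q ≤ 1 := by exact_mod_cast h1
    obtain ⟨m, hm⟩ := Int.eq_ofNat_of_zero_le (Rat.num_pos.2 hq0).le
    have hm1 : 1 ≤ m := by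
      have := Rat.num_pos.2 hq0
      omega
    have hmn : m ≤ q.den := by
      have hd : (0 : ℚ) < q.den := by exact_mod_cast q.den_pos
      have h3 : (q.num : ℚ) / q.den ≤ 1 := by rw [Rat.num_div_den]; exact hq1
      rw [div_le_one hd] at h3
      have h4 : q.num ≤ q.den := by exact_mod_cast h3
      omega
    have e : ((q : ℚ) : ℝ) = (m : ℝ) / q.den := by
      have h2 : (q : ℝ) = (q.num : ℝ) / q.den := by exact_mod_cast (Rat.num_div_den q).symm
      rw [h2, hm]
      push_cast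
      rfl
    rw [e]
    exact rational_case hm1 hmn

end Pool.Agent.H8.GG
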