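import Mathlib

/-!
# Sums of two numbers with partial quotients tending to infinity: one side

A side is the data `(p, q)` (last convergent), `(r, t)` (previous convergent), `e = ± 1` (parity).
`app S a` appends the partial quotient `a`.
-/

set_option autoImplicit false

namespace Pool.Agent.H8.GG

/-- Last convergent `p / q`, previous convergent `r / t`, sign. -/
structure Sd where
  p : ℤ
  q : ℤ
  r : ℤ
  t : ℤ
  e : ℤ

/-- The empty side. -/
def Sd.nil : Sd := ⟨0, 1, 1, 0, 1⟩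

/-- Append a partial quotient. -/
def app (S : Sd) (a : ℤ) : Sd := ⟨a * S.p + S.r, a * S.q + S.t, S.p, S.q, -S.e⟩

structure Ok (S : Sd) : Prop where
  q1 : 1 ≤ S.q
  t0 : 0 ≤ S.t
  tq : S.t ≤ S.q
  det : S.r * S.q - S.p * S.t = S.e
  e1 : S.e = 1 ∨ S.e = -1

theorem Ok.nil : Ok Sd.nil :=
  ⟨by simp [Sd.nil], by simp [Sd.nil], by simp [Sd.nil], by simp [Sd.nil], Or.inl rfl⟩

theorem Ok.app {S : Sd} (h : Ok S) {a : ℤ} (ha : 1 ≤ a) : Ok (app S a) := by
  obtain ⟨h1, h2, h3, h4, h5⟩ := h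
  refine ⟨?_, ?_, ?_, ?_, ?_⟩
  · show 1 ≤ a * S.q + S.t
    nlinarith
  · show 0 ≤ S.q
    omega
  · show S.q ≤ a * S.q + S.t
    nlinarith
  · show S.p * (a * S.q + S.t) - (a * S.p + S.r) * S.q = - S.e
    rw [← h4]; ring
  · show - S.e = 1 ∨ - S.e = -1
    rcases h5 with h | h <;> rw [h] <;> simp

/-- The convergent. -/
noncomputable def cv (S : Sd) : ℝ := (S.p : ℝ) / S.q

/-- The value of the side with tail `y`. -/
noncomputable def val (S : Sd) (y : ℝ) : ℝ := (S.p + S.r * y) / (S.q + S.t * y)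

theorem val_nil (y : ℝ) : val Sd.nil y = y := by simp [val, Sd.nil]

theorem val_app {S : Sd} (a : ℤ) (y : ℝ) (h : 0 < (a : ℝ) + y) :
    val (app S a) y = val S (1 / (a + y)) := by
  have h' : (a : ℝ) + y ≠ 0 := h.ne'
  have e1 : (S.p : ℝ) + S.r * (1 / (a + y)) = ((a * S.p + S.r) + S.p * y) / (a + y) := by
    field_simp; ring
  have e2 : (S.q : ℝ) + S.t * (1 / (a + y)) = ((a * S.q + S.t) + S.q * y) / (a + y) := by
    field_simp; ring
  rw [val, val, e1, e2, div_div_div_cancel_right₀ h']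
  simp [app]

theorem cv_app {S : Sd} (h : Ok S) {a : ℤ} (ha : 1 ≤ a) :
    cv (app S a) = cv S + S.e / (S.q * (app S a).q) := by
  have h1 : (0 : ℝ) < S.q := by exact_mod_cast lt_of_lt_of_le one_pos h.q1
  have h2 : (0 : ℝ) < (app S a).q := by exact_mod_cast lt_of_lt_of_le one_pos (h.app ha).q1
  have h4 : (S.r : ℝ) * S.q - S.p * S.t = S.e := by exact_mod_cast h.det
  rw [cv, cv, ← h4]
  field_simp
  simp only [app]
  push_cast
  ring

theorem abs_val_sub_cv {S : Sd} (h : Ok S) {y : ℝ} (h0 : 0 ≤ y) (h1 : y ≤ 1) :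
    |val S y - cv S| ≤ 1 / (S.q : ℝ) := by
  have hq : (1 : ℝ) ≤ S.q := by exact_mod_cast h.q1
  have ht : (0 : ℝ) ≤ S.t := by exact_mod_cast h.t0
  have hq0 : (0 : ℝ) < S.q := by linarith
  have hd : (0 : ℝ) < S.q + S.t * y := by positivity
  have h4 : (S.r : ℝ) * S.q - S.p * S.t = S.e := by exact_mod_cast h.det
  have e : val S y - cv S = S.e * y / (S.q * (S.q + S.t * y)) := by
    rw [val, cv, ← h4]
    field_simp
    ring
  have he : |(S.e : ℝ)| = 1 := by
    rcases h.e1 with h | h <;> rw [h] <;> simp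
  rw [e, abs_div, abs_mul, he, one_mul, abs_of_nonneg h0, abs_of_pos (by positivity)]
  rw [div_le_div_iff₀ (by positivity) hq0]
  have : (S.q : ℝ) ≤ S.q * (S.q + S.t * y) := by
    have h5 : (1 : ℝ) ≤ S.q + S.t * y := by nlinarith [mul_nonneg ht h0]
    nlinarith
  nlinarith

/-- The basic step. `D = e Δ > 0`, `X = 1 / (q D)`. -/
theorem step_eq {S : Sd} (h : Ok S) {a : ℤ} (ha : 1 ≤ a) {D X : ℝ} (hD : 0 < D)
    (hX : X = 1 / (S.q * D)) :
    S.e * (cv (app S a) - cv S) = 1 / (S.q * (app S a).q) ∧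
    ((app S a).q : ℝ) * (D - 1 / (S.q * (app S a).q)) = D * ((app S a).q - X) := by
  have h1 : (0 : ℝ) < S.q := by exact_mod_cast lt_of_lt_of_le one_pos h.q1
  have h2 : (0 : ℝ) < (app S a).q := by exact_mod_cast lt_of_lt_of_le one_pos (h.app ha).q1
  refine ⟨?_, ?_⟩
  · rw [cv_app h ha, add_sub_cancel_left]
    have he : (S.e : ℝ) * S.e = 1 := by
      rcases h.e1 with h | h <;> rw [h] <;> simp
    rw [← mul_div_assoc, he]
  · rw [hX]
    field_simp

end Pool.Agent.H8.GG
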