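import Pool.Agent.H8.GG.Side

/-!
# Sums of two numbers with partial quotients tending to infinity: the steps
-/

set_option autoImplicit false

namespace Pool.Agent.H8.GG

/-- The (signed) defect of two convergents, seen from the side `A`. -/
noncomputable def df (x : ℝ) (A P : Sd) : ℝ := A.e * (x - cv A - cv P)

structure Base (x : ℝ) (k : ℕ) (A P : Sd) : Prop where
  okA : Ok A
  okP : Ok P
  ee : A.e = P.e
  pos : 0 < df x A P
  le : A.q ≤ P.q
  big : (k + 4 : ℝ) * (A.q * P.q * df x A P) ≤ 1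

/-- `S'` is obtained from `S` by appending a non-empty list of digits `≥ k`. -/
inductive Ext (k : ℕ) (S : Sd) : Sd → Prop
  | one (a : ℤ) : (k : ℤ) ≤ a → Ext k S (app S a)
  | more (S' : Sd) (a : ℤ) : Ext k S S' → (k : ℤ) ≤ a → Ext k S (app S' a)

theorem irr {x : ℝ} (hx : Irrational x) {A P : Sd} (hA : Ok A) :
    Irrational ((1 / (A.q * df x A P) - A.t) / A.q) := by
  have hq : A.q ≠ 0 := by have := hA.q1; omega
  have h1 : Irrational (x - cv A - cv P) := by
    have e1 : cv A = (((A.p : ℚ) / A.q : ℚ) : ℝ) := by rw [cv]; push_cast; rfl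
    have e2 : cv P = (((P.p : ℚ) / P.q : ℚ) : ℝ) := by rw [cv]; push_cast; rfl
    rw [e1, e2]
    exact (hx.sub_ratCast _).sub_ratCast _
  have he : A.e ≠ 0 := by rcases hA.e1 with h | h <;> rw [h] <;> simp
  have h2 : Irrational (df x A P) := h1.intCast_mul he
  have h3 : Irrational (1 / (A.q * df x A P)) := by
    rw [one_div]; exact (h2.intCast_mul hq).inv
  exact (h3.sub_intCast _).div_intCast hq

/-- Rounding down. -/
theorem down {x : ℝ} (hx : Irrational x) {A P : Sd} (hA : Ok A)
    (hD : 0 < df x A P) {c : ℝ} (hc2 : 3 ≤ c) (hc : c * (A.q ^ 2 * df x A P) ≤ 1) :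
    ∃ (a : ℤ) (τ : ℝ), 0 < τ ∧ τ < 1 ∧ c - 2 < a ∧ Ok (app A a) ∧
      0 < df x (app A a) P ∧
      ((app A a).q : ℝ) * df x (app A a) P = A.q * df x A P * τ ∧
      ((app A a).q : ℝ) = 1 / (A.q * df x A P) - A.q * τ ∧
      (1 - τ) * (A.q * df x A P) = (app A (a + 1)).q * df x (app A (a + 1)) P * (-1) ∧
      df x (app A (a + 1)) P < 0 ∧
      ((app A (a + 1)).q : ℝ) = 1 / (A.q * df x A P) + A.q * (1 - τ) := by
  set D := df x A P with hDdef
  have hq0 : (0 : ℝ) < A.q := by exact_mod_cast lt_of_lt_of_le one_pos hA.q1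
  have hq1 : (1 : ℝ) ≤ A.q := by exact_mod_cast hA.q1
  have ht : (0 : ℝ) ≤ A.t := by exact_mod_cast hA.t0
  have htq : (A.t : ℝ) ≤ A.q := by exact_mod_cast hA.tq
  set X := 1 / (A.q * D) with hX
  set Y := (X - A.t) / A.q with hY
  have hirr : Irrational Y := irr hx hA
  refine ⟨⌊Y⌋, Int.fract Y, ?_, Int.fract_lt_one Y, ?_⟩
  · rcases (Int.fract_nonneg Y).lt_or_eq with h | h
    · exact h
    · exfalso
      refine hirr ⟨⌊Y⌋, ?_⟩
      have := Int.self_sub_floor Y
      rw [← h] at this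
      push_cast
      linarith
  set τ := Int.fract Y with hτ
  have hτ0 : 0 < τ := by
    rcases (Int.fract_nonneg Y).lt_or_eq with h | h
    · exact h
    · exfalso
      refine hirr ⟨⌊Y⌋, ?_⟩
      have := Int.self_sub_floor Y
      rw [← h] at this
      push_cast
      linarith
  have hτ1 : τ < 1 := Int.fract_lt_one Y
  have hfl : (⌊Y⌋ : ℝ) = Y - τ := by have := Int.self_sub_floor Y; linarith
  have hXq : c * A.q ≤ X := by
    rw [hX, le_div_iff₀ (by positivity)]
    nlinarith
  have hYc : c - 1 ≤ Y := by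
    rw [hY, le_div_iff₀ hq0]
    nlinarith
  have hac : c - 2 < ⌊Y⌋ := by rw [hfl]; linarith
  have ha1 : 1 ≤ ⌊Y⌋ := by
    have : (0 : ℝ) < ⌊Y⌋ := by linarith
    have : 0 < ⌊Y⌋ := by exact_mod_cast this
    omega
  have ha2 : 1 ≤ ⌊Y⌋ + 1 := by omega
  have hYq : A.q * Y = X - A.t := by rw [hY]; field_simp
  have hq' : ((app A ⌊Y⌋).q : ℝ) = X - A.q * τ := by
    have : ((app A ⌊Y⌋).q : ℝ) = ⌊Y⌋ * A.q + A.t := by simp [app]
    rw [this, hfl]
    linarith
  have hq'' : ((app A (⌊Y⌋ + 1)).q : ℝ) = X + A.q * (1 - τ) := by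
    have : ((app A (⌊Y⌋ + 1)).q : ℝ) = (⌊Y⌋ + 1) * A.q + A.t := by simp [app]
    rw [this, hfl]
    linarith
  have hdf : ∀ a : ℤ, df x (app A a) P = - (D - A.e * (cv (app A a) - cv A)) := by
    intro a
    rw [hDdef, df, df]
    simp only [app]
    push_cast
    ring
  obtain ⟨s1, s2⟩ := step_eq hA ha1 hD hX
  obtain ⟨u1, u2⟩ := step_eq hA ha2 hD hX
  have hok := hA.app ha1
  have hok2 := hA.app ha2
  have hp : (0 : ℝ) < (app A ⌊Y⌋).q := by exact_mod_cast lt_of_lt_of_le one_pos hok.q1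
  have hp2 : (0 : ℝ) < (app A (⌊Y⌋ + 1)).q := by exact_mod_cast lt_of_lt_of_le one_pos hok2.q1
  have k1 : ((app A ⌊Y⌋).q : ℝ) * df x (app A ⌊Y⌋) P = A.q * D * τ := by
    rw [hdf, s1, mul_neg, s2, hq']; ring
  have k2 : (1 - τ) * (A.q * D) = (app A (⌊Y⌋ + 1)).q * df x (app A (⌊Y⌋ + 1)) P * (-1) := by
    rw [hdf, u1]
    linear_combination (-1 : ℝ) * u2 - D * hq''
  refine ⟨hac, hok, ?_, k1, hq', k2, ?_, hq''⟩
  · have : 0 < ((app A ⌊Y⌋).q : ℝ) * df x (app A ⌊Y⌋) P := by rw [k1]; positivity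
    exact (pos_iff_pos_of_mul_pos this).1 hp
  · have h0 : 0 < (1 - τ) * (A.q * D) := mul_pos (by linarith) (by positivity)
    rw [k2] at h0
    by_contra hcon
    push Not at hcon
    have := mul_nonneg hp2.le hcon
    linarith

/-- The macro step. -/
theorem macroStep {x : ℝ} (hx : Irrational x) {k : ℕ} {A P : Sd} (h : Base x k A P) :
    (∃ A' P', Ext (k + 2) A A' ∧ Ext (k + 2) P P' ∧ Base x (k + 1) A' P') ∨
    (∃ A', Ext (k + 2) A A' ∧ Base x (k + 1) P A') := by
  obtain ⟨hA, hP, hee, hD, hle, hbig⟩ := h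
  have hq0 : (0 : ℝ) < A.q := by exact_mod_cast lt_of_lt_of_le one_pos hA.q1
  have hs0 : (0 : ℝ) < P.q := by exact_mod_cast lt_of_lt_of_le one_pos hP.q1
  have hle' : (A.q : ℝ) ≤ P.q := by exact_mod_cast hle
  have hk : (0 : ℝ) ≤ k := Nat.cast_nonneg k
  set D := df x A P with hDdef
  have hc : (k + 4 : ℝ) * (A.q ^ 2 * D) ≤ 1 := by
    refine le_trans ?_ hbig
    have : (A.q : ℝ) ^ 2 * D ≤ A.q * P.q * D := by
      rw [sq]
      exact mul_le_mul_of_nonneg_right (mul_le_mul_of_nonneg_left hle' hq0.le) hD.le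
    exact mul_le_mul_of_nonneg_left this (by linarith)
  obtain ⟨a, τ, hτ0, hτ1, hac, hok, hpos, hmul, hqa, hup, hneg, hqu⟩ :=
    down hx (P := P) hA hD (by linarith : (3 : ℝ) ≤ k + 4) hc
  have hX : (k + 4 : ℝ) * P.q ≤ 1 / (A.q * D) := by
    rw [le_div_iff₀ (by positivity)]
    linarith [hbig]
  by_cases hτ : 1 / (k + 4 : ℝ) ≤ τ
  · -- round up, then the other side down
    left
    have ha' : (k : ℝ) + 2 < a := by linarith
    have ha'' : (k : ℤ) + 2 < a := by exact_mod_cast ha'
    have hok2 : Ok (app A (a + 1)) := hA.app (by omega)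
    have hq20 : (0 : ℝ) < (app A (a + 1)).q := by
      exact_mod_cast lt_of_lt_of_le one_pos hok2.q1
    -- defect seen from `P`
    have hdP : df x P (app A (a + 1)) = - df x (app A (a + 1)) P := by
      rw [df, df, ← hee]
      simp only [app]
      push_cast
      ring
    have hDP : 0 < df x P (app A (a + 1)) := by rw [hdP]; linarith
    have hqle : (k + 4 : ℝ) * P.q ≤ (app A (a + 1)).q := by
      rw [hqu]
      have : 0 ≤ A.q * (1 - τ) := mul_nonneg hq0.le (by linarith)
      linarith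
    have hsle : (P.q : ℝ) ≤ (app A (a + 1)).q := by nlinarith
    -- potential
    have hpot : (k + 5 : ℝ) * (P.q * (app A (a + 1)).q * df x P (app A (a + 1))) ≤ 1 := by
      have e : (P.q : ℝ) * (app A (a + 1)).q * df x P (app A (a + 1))
          = (A.q * P.q * D) * (1 - τ) := by
        rw [hdP]
        linear_combination (-(P.q : ℝ)) * hup
      rw [e]
      have hk4 : (0 : ℝ) < k + 4 := by linarith
      have h1 : (A.q : ℝ) * P.q * D ≤ 1 / (k + 4) := by
        rw [le_div_iff₀ hk4]; linarith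
      have h2 : (1 - τ) ≤ 1 - 1 / (k + 4 : ℝ) := by linarith
      have h3 : (A.q : ℝ) * P.q * D * (1 - τ) ≤ 1 / (k + 4) * (1 - 1 / (k + 4)) :=
        mul_le_mul h1 h2 (by linarith) (by positivity)
      have h4 : (k + 5 : ℝ) * (1 / (k + 4) * (1 - 1 / (k + 4))) ≤ 1 := by
        rw [show (k + 5 : ℝ) * (1 / (k + 4) * (1 - 1 / (k + 4)))
          = ((k + 5) * (k + 3)) / (k + 4) ^ 2 by field_simp; ring]
        rw [div_le_one (by positivity)]
        nlinarith
      refine le_trans ?_ h4
      exact mul_le_mul_of_nonneg_left h3 (by linarith)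
    have hc2 : (k + 5 : ℝ) * (P.q ^ 2 * df x P (app A (a + 1))) ≤ 1 := by
      refine le_trans ?_ hpot
      have : (P.q : ℝ) ^ 2 * df x P (app A (a + 1))
          ≤ P.q * (app A (a + 1)).q * df x P (app A (a + 1)) := by
        rw [sq]
        exact mul_le_mul_of_nonneg_right (mul_le_mul_of_nonneg_left hsle hs0.le) hDP.le
      exact mul_le_mul_of_nonneg_left this (by linarith)
    obtain ⟨b, σ, hσ0, hσ1, hbc, hokb, hposb, hmulb, hqb, -, -, -⟩ :=
      down hx (P := app A (a + 1)) hP hDP (by linarith : (3 : ℝ) ≤ k + 5) hc2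
    have hb' : (k : ℝ) + 3 < b := by linarith
    have hb'' : (k : ℤ) + 3 < b := by exact_mod_cast hb'
    refine ⟨app A (a + 1), app P b, Ext.one _ (by push_cast; omega),
      Ext.one _ (by push_cast; omega), hok2, hokb, ?_, ?_, ?_, ?_⟩
    · simp only [app]; rw [hee]
    · have : df x (app A (a + 1)) (app P b) = df x (app P b) (app A (a + 1)) := by
        rw [df, df]
        simp only [app, hee]
        push_cast
        ring
      rw [this]; exact hposb
    · have h1 : (k + 5 : ℝ) * (app A (a + 1)).q ≤ 1 / (P.q * df x P (app A (a + 1))) := by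
        rw [le_div_iff₀ (by positivity)]
        linarith [hpot]
      have h2 : ((app A (a + 1)).q : ℝ) ≤ (app P b).q := by
        rw [hqb]
        nlinarith
      exact_mod_cast h2
    · have : df x (app A (a + 1)) (app P b) = df x (app P b) (app A (a + 1)) := by
        rw [df, df]
        simp only [app, hee]
        push_cast
        ring
      rw [this]
      have e : ((app A (a + 1)).q : ℝ) * (app P b).q * df x (app P b) (app A (a + 1))
          = (P.q * (app A (a + 1)).q * df x P (app A (a + 1))) * σ := by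
        linear_combination ((app A (a + 1)).q : ℝ) * hmulb
      rw [e]
      push_cast
      have h1 : 0 ≤ (P.q * (app A (a + 1)).q * df x P (app A (a + 1)) : ℝ) := by positivity
      have h2 : (P.q * (app A (a + 1)).q * df x P (app A (a + 1)) : ℝ) * σ
          ≤ P.q * (app A (a + 1)).q * df x P (app A (a + 1)) := mul_le_of_le_one_right h1 hσ1.le
      calc ((k : ℝ) + 1 + 4) * (P.q * (app A (a + 1)).q * df x P (app A (a + 1)) * σ)
          ≤ (k + 1 + 4) * (P.q * (app A (a + 1)).q * df x P (app A (a + 1))) :=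
            mul_le_mul_of_nonneg_left h2 (by linarith)
        _ = (k + 5) * (P.q * (app A (a + 1)).q * df x P (app A (a + 1))) := by ring
        _ ≤ 1 := hpot
  · -- round down, then the same side again
    right
    push Not at hτ
    have hk4 : (0 : ℝ) < k + 4 := by linarith
    have hτ' : τ * (k + 4) < 1 := by
      rwa [lt_div_iff₀ hk4] at hτ
    have ha' : (k : ℝ) + 2 < a := by linarith
    have ha'' : (k : ℤ) + 2 < a := by exact_mod_cast ha'
    have hq'0 : (0 : ℝ) < (app A a).q := by exact_mod_cast lt_of_lt_of_le one_pos hok.q1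
    have hq'X : ((app A a).q : ℝ) ≤ 1 / (A.q * D) := by
      rw [hqa]
      have : 0 ≤ A.q * τ := by positivity
      linarith
    have hq'D : ((app A a).q : ℝ) * (A.q * D) ≤ 1 := by
      rwa [le_div_iff₀ (by positivity)] at hq'X
    have hc2 : (k + 4 : ℝ) * ((app A a).q ^ 2 * df x (app A a) P) ≤ 1 := by
      have e : ((app A a).q : ℝ) ^ 2 * df x (app A a) P = ((app A a).q * (A.q * D)) * τ := by
        linear_combination ((app A a).q : ℝ) * hmul
      rw [e]
      have h1 : ((app A a).q : ℝ) * (A.q * D) * τ ≤ 1 * τ :=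
        mul_le_mul_of_nonneg_right hq'D hτ0.le
      nlinarith
    obtain ⟨b, σ, hσ0, hσ1, hbc, hokb, hposb, hmulb, hqb, -, -, -⟩ :=
      down hx (P := P) hok hpos (by linarith : (3 : ℝ) ≤ k + 4) hc2
    have hb' : (k : ℝ) + 2 < b := by linarith
    have hb'' : (k : ℤ) + 2 < b := by exact_mod_cast hb'
    have hsw : df x P (app (app A a) b) = df x (app (app A a) b) P := by
      rw [df, df]
      simp only [app, hee]
      push_cast
      ring
    refine ⟨app (app A a) b, Ext.more _ _ (Ext.one _ (by push_cast; omega)) (by push_cast; omega),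
      hP, hokb, ?_, ?_, ?_, ?_⟩
    · simp only [app]; rw [hee]; ring
    · rw [hsw]; exact hposb
    · have h1 : (P.q : ℝ) ≤ (app A a).q := by
        rw [hqa]
        have : A.q * τ ≤ A.q := mul_le_of_le_one_right hq0.le hτ1.le
        nlinarith
      have h2 : ((app A a).q : ℝ) ≤ (app (app A a) b).q := by
        have h3 : ((app (app A a) b).q : ℝ) = b * (app A a).q + A.q := by simp [app]
        rw [h3]
        nlinarith
      exact_mod_cast h1.trans h2
    · rw [hsw]
      have e : (P.q : ℝ) * (app (app A a) b).q * df x (app (app A a) b) P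
          = (A.q * P.q * D) * τ * σ := by
        linear_combination (P.q : ℝ) * hmulb + (P.q : ℝ) * σ * hmul
      rw [e]
      push_cast
      have h1 : (k + 4 : ℝ) * (A.q * P.q * D) ≤ 1 := hbig
      have h0 : 0 ≤ (A.q * P.q * D : ℝ) := by positivity
      have h2 : (A.q * P.q * D : ℝ) * τ * σ ≤ A.q * P.q * D * τ :=
        mul_le_of_le_one_right (by positivity) hσ1.le
      have h3 : (k + 1 + 4 : ℝ) * (A.q * P.q * D * τ) ≤ 1 := by
        have h4 : (k + 1 + 4 : ℝ) * τ ≤ k + 4 := by nlinarith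
        calc (k + 1 + 4 : ℝ) * (A.q * P.q * D * τ)
            = ((k + 1 + 4) * τ) * (A.q * P.q * D) := by ring
          _ ≤ (k + 4) * (A.q * P.q * D) := mul_le_mul_of_nonneg_right h4 h0
          _ ≤ 1 := h1
      calc ((k : ℝ) + 1 + 4) * (A.q * P.q * D * τ * σ)
          ≤ (k + 1 + 4) * (A.q * P.q * D * τ) := mul_le_mul_of_nonneg_left h2 (by linarith)
        _ ≤ 1 := h3

end Pool.Agent.H8.GG
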